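import Pool.Agent.MWP.Stmts

/-!
# Block MWP, row DB1: multiple letters can be doubled
-/

set_option autoImplicit false

namespace Pool.Agent.MWP.H7

open Pool.Agent.Helper14_MV Pool.Agent.Helper2_MV Pool.Agent.MWF

theorem rcast {β : FIC} {a a' b b' : List ℕ} (ha : a' = a) (hb : b' = b) (h : RR β a b) :
    RR β a' b' := ha ▸ hb ▸ h

/-- `c A c ≈ c c A c c` -/
theorem bet_at {β : FIC} (hb : RR β [0, 1, 0] [0, 0, 1, 0, 0]) (c : ℕ) (A : List ℕ) :
    RR β (c :: (A ++ [c])) (c :: c :: (A ++ [c, c])) := by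
  have h := RR.sub (fun i => if i = 0 then [c] else A) hb
  exact rcast (by simp [List.flatMap_cons]) (by simp [List.flatMap_cons]) h

/-- `c c c ≈ c c` -/
theorem sq_at {β : FIC} (hA : Ap β) (c : ℕ) : RR β [c, c, c] [c, c] :=
  (rcast (by simp) (by simp) (RR.sub (fun _ => [c]) hA.sq) : RR β [c, c] [c, c, c]).symm

/-- the last occurrence can be doubled -/
theorem last_dbl {β : FIC} (hA : Ap β) (hb : RR β [0, 1, 0] [0, 0, 1, 0, 0]) (c : ℕ)
    (A : List ℕ) : RR β (c :: (A ++ [c])) (c :: (A ++ [c, c])) := by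
  have h1 := bet_at hb c A
  have h2 := bet_at hb c (A ++ [c])
  have h3 : RR β (c :: c :: (A ++ [c, c, c])) (c :: c :: (A ++ [c, c])) :=
    rcast (by simp) (by simp) (RR.append (RR.refl (c :: c :: A)) (sq_at hA c))
  have h4 : RR β (c :: (A ++ [c, c])) (c :: c :: (A ++ [c, c, c])) :=
    rcast (by simp) (by simp) h2
  exact β.trans h1 (β.symm (β.trans h4 h3))

/-- the first occurrence can be doubled -/
theorem first_dbl {β : FIC} (hA : Ap β) (hb : RR β [0, 1, 0] [0, 0, 1, 0, 0]) (c : ℕ)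
    (A : List ℕ) : RR β (c :: (A ++ [c])) (c :: c :: (A ++ [c])) := by
  have h1 := bet_at hb c A
  have h2 := bet_at hb c (c :: A)
  have h3 : RR β (c :: c :: c :: (A ++ [c, c])) (c :: c :: (A ++ [c, c])) :=
    rcast (by simp) (by simp) (RR.append (sq_at hA c) (RR.refl (A ++ [c, c])))
  have h4 : RR β (c :: c :: (A ++ [c])) (c :: c :: c :: (A ++ [c, c])) :=
    rcast (by simp) (by simp) h2
  exact β.trans h1 (β.symm (β.trans h4 h3))

/-- every occurrence of a multiple letter can be doubled -/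
theorem one_dbl {β : FIC} (hA : Ap β) (hb : RR β [0, 1, 0] [0, 0, 1, 0, 0]) (c : ℕ)
    (P Q : List ℕ) (h : c ∈ P ∨ c ∈ Q) : RR β (P ++ c :: Q) (P ++ c :: c :: Q) := by
  rcases h with h | h
  · obtain ⟨P1, P2, rfl⟩ := List.append_of_mem h
    have h1 := RR.append (RR.append (RR.refl P1) (last_dbl hA hb c P2)) (RR.refl (β := β) Q)
    exact rcast (by simp) (by simp) h1
  · obtain ⟨Q1, Q2, rfl⟩ := List.append_of_mem h
    have h1 := RR.append (RR.append (RR.refl P) (first_dbl hA hb c Q1)) (RR.refl (β := β) Q2)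
    exact rcast (by simp) (by simp) h1

theorem d0_append (P Q : List ℕ) : d0 (P ++ Q) = d0 P ++ d0 Q := by
  unfold d0
  rw [List.flatMap_append]

theorem mem_d0 {P : List ℕ} {c : ℕ} (h : c ∈ P) : c ∈ d0 P := by
  unfold d0
  refine List.mem_flatMap.2 ⟨c, h, ?_⟩
  split_ifs with h0
  · simp [h0]
  · simp

theorem go {β : FIC} (hA : Ap β) (hb : RR β [0, 1, 0] [0, 0, 1, 0, 0]) (S : List ℕ) :
    ∀ P : List ℕ, (∀ c ∈ P ++ S, c ≠ 0 → [c, c].Sublist (P ++ S)) →
      RR β (d0 P ++ S) (d0 (P ++ S)) := by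
  induction S with
  | nil =>
    intro P _
    exact rcast (List.append_nil _) (by rw [List.append_nil]) (RR.refl (d0 P))
  | cons c S ih =>
    intro P hP
    have e0 : P ++ c :: S = (P ++ [c]) ++ S := by simp
    have h1 := ih (P ++ [c]) (by rw [← e0]; exact hP)
    rw [← e0, d0_append] at h1
    refine β.trans (?_ : RR β _ (d0 P ++ d0 [c] ++ S)) h1
    by_cases hc : c = 0
    · subst hc
      exact rcast rfl (by simp [d0]) (RR.refl (d0 P ++ 0 :: S))
    · have h2 := hP c (by simp) hc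
      have h3 : c ∈ d0 P ∨ c ∈ S := by
        rcases pair_append.1 h2 with h | ⟨h, -⟩ | h
        · exact Or.inl (mem_d0 (pair_mem h).1)
        · exact Or.inl (mem_d0 h)
        · rcases pair_cons.1 h with ⟨-, h⟩ | h
          · exact Or.inr h
          · exact Or.inr (pair_mem h).1
      exact rcast rfl (by simp [d0, hc]) (one_dbl hA hb c (d0 P) S h3)

/-- **DB1**. -/
theorem db1 : Db1Stmt := by
  intro β hA hb w hw
  have h := go hA hb w [] (by simpa using hw)
  exact rcast (by simp [d0]) (by simp) h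

end Pool.Agent.MWP.H7
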