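import Pool.Agent.Helper7_MWP.DB1

/-!
# Block MWP, row GE1: three identities which do not hold
-/

set_option autoImplicit false

namespace Pool.Agent.MWP.H7

open Pool.Agent.Helper14_MV Pool.Agent.Helper2_MV Pool.Agent.MWF

theorem ge3 {β : FIC} (hB : Bt β) : ¬ RR β (dbl [0, 1]) (dbl [0, 1, 0]) := by
  intro h
  apply hB.e0
  have h1 : RR β [0, 1, 1, 2, 0] [0, 0, 1, 1, 2, 0, 0] := bet_at hB.bet 0 [1, 1, 2]
  have h2 : RR β [0, 0, 1, 1, 2, 0, 0] [0, 0, 1, 1, 0, 0, 2, 0, 0] :=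
    RR.append h (RR.refl [2, 0, 0])
  have h3 : RR β [0, 1, 1, 0, 2, 0] [0, 0, 1, 1, 0, 2, 0, 0] := bet_at hB.bet 0 [1, 1, 0, 2]
  have h4 : RR β [0, 0, 1, 1, 0, 2, 0, 0] [0, 0, 1, 1, 0, 0, 2, 0, 0] :=
    one_dbl hB.ap hB.bet 0 [0, 0, 1, 1] [2, 0, 0] (Or.inl (by simp))
  exact β.trans h1 (β.trans h2 (β.symm (β.trans h3 h4)))

theorem ge2 {β : FIC} (hB : Bt β) : ¬ RR β (dbl [1, 0]) (dbl [0, 1, 0]) := by
  intro h
  apply ge3 hB
  have h1 : RR β [0, 0, 1, 1] [1, 1, 0, 0, 1, 1] :=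
    RR.sub (fun i => if i = 0 then [1] else [0]) h
  have h2 : RR β (dbl [1, 0, 1]) (dbl [0, 1, 0]) := by
    apply hB.sato
    · intro a
      simp only [List.mem_cons, List.not_mem_nil, or_false]
      tauto
    · intro a b hab
      simp only [pair_cons, List.mem_cons, List.not_mem_nil, or_false, pair_nil, and_false]
      constructor
      · rintro (⟨rfl, rfl | rfl⟩ | ⟨rfl, rfl⟩)
        · exact Or.inr ⟨rfl, rfl⟩
        · exact absurd rfl hab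
        · exact Or.inl ⟨rfl, Or.inl rfl⟩
      · rintro (⟨rfl, rfl | rfl⟩ | ⟨rfl, rfl⟩)
        · exact Or.inr ⟨rfl, rfl⟩
        · exact absurd rfl hab
        · exact Or.inl ⟨rfl, Or.inl rfl⟩
  exact β.trans h1 h2

theorem ge1' {β : FIC} (hB : Bt β) : ¬ RR β [1, 1, 0, 2, 0] [0, 1, 1, 0, 2, 0] := by
  intro h
  apply ge2 hB
  have h1 : RR β [1, 1, 0, 0] [0, 1, 1, 0, 0] := RR.filter (fun c => decide (c ≠ 2)) h
  have h2 : RR β [0, 1, 1, 0, 0] [0, 0, 1, 1, 0, 0] :=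
    one_dbl hB.ap hB.bet 0 [] [1, 1, 0, 0] (Or.inr (by simp))
  exact β.trans h1 h2

/-- **GE1**. -/
theorem ge1 (_hDB1 : Db1Stmt) : Ge1Stmt := fun _ hB => ⟨ge1' hB, ge2 hB, ge3 hB⟩

end Pool.Agent.MWP.H7
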